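import Pool.Agent.W711.HT.Stm2

/-!
# Volume conjecture for highly twisted two-bridge links: the recursion preserves entire even functions
-/

set_option autoImplicit false

namespace Pool.Agent.W398.HT

open Filter Topology MeasureTheory
open scoped Real
open Pool.Agent.W711.HT

theorem upp_sum (h : ℝ) (s : Finset ℕ) (c : ℕ → ℂ) (f : ℕ → ℂ → ℂ)
    (h1 : ∀ d ∈ s, IntervalIntegrable (fun y : ℝ => f d (-π + y * Complex.I)) volume 0 h)
    (h2 : ∀ d ∈ s, IntervalIntegrable (fun x : ℝ => f d (x + h * Complex.I)) volume (-π) π)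
    (h3 : ∀ d ∈ s, IntervalIntegrable (fun y : ℝ => f d (π + y * Complex.I)) volume 0 h) :
    upp h (fun ψ => ∑ d ∈ s, c d * f d ψ) = ∑ d ∈ s, c d * upp h (f d) := by
  unfold upp
  rw [intervalIntegral.integral_finsetSum (fun d hd => (h1 d hd).const_mul _),
    intervalIntegral.integral_finsetSum (fun d hd => (h2 d hd).const_mul _),
    intervalIntegral.integral_finsetSum (fun d hd => (h3 d hd).const_mul _),
    Finset.mul_sum, Finset.mul_sum, ← Finset.sum_add_distrib, ← Finset.sum_sub_distrib]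
  apply Finset.sum_congr rfl
  intro d _
  simp only [intervalIntegral.integral_const_mul]
  ring

theorem Rp_diff (N d : ℕ) : Differentiable ℂ (Rp N d) := by
  unfold Rp
  apply Differentiable.fun_finsetProd
  intro j _
  fun_prop

theorem Rp_even (N d : ℕ) (ψ : ℂ) : Rp N d (-ψ) = Rp N d ψ := by
  unfold Rp
  simp only [Complex.cos_neg]

theorem cos_ne (z : ℂ) (h : z.im ≠ 0 ∨ ∀ k : ℤ, z.re ≠ (2 * k + 1) * π / 2) :
    Complex.cos z ≠ 0 := by
  intro h0
  obtain ⟨k, hk⟩ := Complex.cos_eq_zero_iff.1 h0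
  have e : ((2 * (k : ℂ) + 1) * π / 2) = (((2 * k + 1) * π / 2 : ℝ) : ℂ) := by
    push_cast
    ring
  rw [e] at hk
  rcases h with h | h
  · apply h
    rw [hk, Complex.ofReal_im]
  · apply h k
    rw [hk, Complex.ofReal_re]

theorem stp_eq (a : ℤ) (X : ℕ → ℂ → ℂ) (hX : ∀ N, Differentiable ℂ (X N)) (N : ℕ) (ψ' : ℂ) :
    stp a X N ψ' = ∑ d ∈ Finset.range N, (Rp N d ψ' / (Sd N d : ℂ) ^ 4) *
      upp (1 / N) (fun ψ => Ea a N ψ * X N ψ * Rp N d ψ * kr N ψ) := by
  have e : (fun ψ => Ea a N ψ * X N ψ * Pool.Agent.W711.HT.ker N ψ ψ' * kr N ψ) = fun ψ =>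
      ∑ d ∈ Finset.range N, (Rp N d ψ' / (Sd N d : ℂ) ^ 4) *
        (Ea a N ψ * X N ψ * Rp N d ψ * kr N ψ) := by
    funext ψ
    unfold Pool.Agent.W711.HT.ker
    rw [Finset.mul_sum, Finset.sum_mul]
    apply Finset.sum_congr rfl
    intro d _
    ring
  unfold stp
  rw [e]
  rcases Nat.eq_zero_or_pos N with h0 | hN
  · rw [h0]
    simp [upp]
  have hNR : (0 : ℝ) < N := by exact_mod_cast hN
  have hcont : ∀ (g : ℝ → ℂ) (s : Set ℝ), Continuous g →
      (∀ t ∈ s, Complex.cos (N * (g t + π) / 2) ≠ 0) → ∀ d,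
      ContinuousOn (fun t => Ea a N (g t) * X N (g t) * Rp N d (g t) * kr N (g t)) s := by
    intro g s hg hs d
    have c1 : Continuous (fun t => Ea a N (g t)) := by
      unfold Ea
      fun_prop
    have c2 : Continuous (fun t => X N (g t)) := (hX N).continuous.comp hg
    have c3 : Continuous (fun t => Rp N d (g t)) := (Rp_diff N d).continuous.comp hg
    apply ((c1.mul c2).mul c3).continuousOn.mul
    unfold kr
    apply ContinuousOn.div
    · fun_prop
    · fun_prop
    · intro t ht
      exact mul_ne_zero (by norm_num) (pow_ne_zero _ (hs t ht))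
  apply upp_sum
  · intro d _
    apply ContinuousOn.intervalIntegrable
    apply hcont (fun y : ℝ => -π + y * Complex.I) _ (by fun_prop) _ d
    intro y _
    apply cos_ne
    by_cases hy : y = 0
    · right
      intro k
      rw [hy]
      have : ((N : ℂ) * ((-π + ((0 : ℝ) : ℂ) * Complex.I) + π) / 2) = 0 := by
        push_cast
        ring
      rw [this, Complex.zero_re]
      intro h0
      have h1 : (2 * (k : ℝ) + 1) = 0 := by
        have := Real.pi_pos
        nlinarith
      have h2 : 2 * k + 1 = 0 := by exact_mod_cast h1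
      omega
    · left
      have : ((N : ℂ) * ((-π + (y : ℂ) * Complex.I) + π) / 2) = ((N * y / 2 : ℝ) : ℂ) * Complex.I := by
        push_cast
        ring
      rw [this]
      simp
      exact ⟨hN.ne', hy⟩
  · intro d _
    apply ContinuousOn.intervalIntegrable
    apply hcont (fun x : ℝ => x + ((1 / N : ℝ) : ℂ) * Complex.I) _ (by fun_prop) _ d
    intro x _
    apply cos_ne
    left
    have : ((N : ℂ) * ((x + ((1 / N : ℝ) : ℂ) * Complex.I) + π) / 2) =
        ((N * (x + π) / 2 : ℝ) : ℂ) + ((1 / 2 : ℝ) : ℂ) * Complex.I := by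
      have : (N : ℂ) ≠ 0 := by exact_mod_cast hN.ne'
      push_cast
      field_simp
      ring
    rw [this]
    simp
  · intro d _
    apply ContinuousOn.intervalIntegrable
    apply hcont (fun y : ℝ => π + y * Complex.I) _ (by fun_prop) _ d
    intro y _
    apply cos_ne
    by_cases hy : y = 0
    · right
      intro k
      rw [hy]
      have : ((N : ℂ) * ((π + ((0 : ℝ) : ℂ) * Complex.I) + π) / 2) = ((N * π : ℝ) : ℂ) := by
        push_cast
        ring
      rw [this, Complex.ofReal_re]
      intro h0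
      have h1 : (2 * (k : ℝ) + 1) = 2 * N := by
        have := Real.pi_pos
        have h3 : π * (2 * (k : ℝ) + 1 - 2 * N) = 0 := by linarith
        rcases mul_eq_zero.1 h3 with h4 | h4
        · linarith
        · linarith
      have h2 : 2 * k + 1 = 2 * (N : ℤ) := by exact_mod_cast h1
      omega
    · left
      have : ((N : ℂ) * ((π + (y : ℂ) * Complex.I) + π) / 2) =
          ((N * π : ℝ) : ℂ) + ((N * y / 2 : ℝ) : ℂ) * Complex.I := by
        push_cast
        ring
      rw [this]
      simp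
      exact ⟨hN.ne', hy⟩

theorem t_STPE : S_STPE := by
  intro a X hX
  refine ⟨fun N => ?_, fun N ψ => ?_⟩
  · have e : stp a X N = fun ψ' => ∑ d ∈ Finset.range N, (Rp N d ψ' / (Sd N d : ℂ) ^ 4) *
      upp (1 / N) (fun ψ => Ea a N ψ * X N ψ * Rp N d ψ * kr N ψ) := by
      funext ψ'
      exact stp_eq a X hX N ψ'
    rw [e]
    apply Differentiable.fun_sum
    intro d _
    have := Rp_diff N d
    fun_prop
  · rw [stp_eq a X hX, stp_eq a X hX]
    apply Finset.sum_congr rfl
    intro d _
    rw [Rp_even]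

end Pool.Agent.W398.HT
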