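import Pool.Agent.W711.HT.Stm

/-!
# Volume conjecture for highly twisted two-bridge links: derivatives of the limit functions
-/

set_option autoImplicit false

namespace Pool.Agent.W398.HT

open Filter Topology Metric MeasureTheory Set
open scoped Real
open Pool.Agent.W711.HT

/-- differentiation under the integral sign over `[0, 1]` -/
theorem par {H : Type*} [NormedAddCommGroup H] [NormedSpace ℂ H] [ProperSpace H] (U : Set H)
    (hU : IsOpen U) (F : H → ℝ → ℂ) (F' : H → ℝ → H →L[ℂ] ℂ)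
    (hF : ∀ x ∈ U, ∀ t ∈ Icc (0 : ℝ) 1, HasFDerivAt (fun x => F x t) (F' x t) x)
    (hFc : ContinuousOn (fun p : H × ℝ => F p.1 p.2) (U ×ˢ Icc 0 1))
    (hF'c : ContinuousOn (fun p : H × ℝ => F' p.1 p.2) (U ×ˢ Icc 0 1)) (x : H) (hx : x ∈ U) :
    HasFDerivAt (fun x => ∫ t in (0 : ℝ)..1, F x t) (∫ t in (0 : ℝ)..1, F' x t) x := by
  obtain ⟨ε, hε, hεU⟩ : ∃ ε > 0, closedBall x ε ⊆ U := nhds_basis_closedBall.mem_iff.1
    (hU.mem_nhds hx)
  have hK : IsCompact (closedBall x ε ×ˢ Icc (0 : ℝ) 1) :=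
    (isCompact_closedBall x ε).prod isCompact_Icc
  obtain ⟨C, hC⟩ := hK.exists_bound_of_continuousOn
    (hF'c.mono (prod_mono hεU Subset.rfl))
  have hslice : ∀ y ∈ U, ContinuousOn (fun t : ℝ => F y t) (Icc 0 1) := by
    intro y hy
    exact hFc.comp (f := fun t : ℝ => (y, t)) (by fun_prop) (fun t ht => ⟨hy, ht⟩)
  have hslice' : ContinuousOn (fun t : ℝ => F' x t) (Icc 0 1) :=
    hF'c.comp (f := fun t : ℝ => (x, t)) (by fun_prop) (fun t ht => ⟨hx, ht⟩)
  have hI : uIoc (0 : ℝ) 1 ⊆ Icc (0 : ℝ) 1 := by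
    rw [uIoc_of_le zero_le_one]
    exact Ioc_subset_Icc_self
  refine intervalIntegral.hasFDerivAt_integral_of_dominated_of_fderiv_le (𝕜 := ℂ)
    (ball_mem_nhds x hε) ?_ ?_ ?_ (bound := fun _ => C) ?_ intervalIntegrable_const ?_
  · filter_upwards [hU.mem_nhds hx] with y hy
    exact ((hslice y hy).mono hI).aestronglyMeasurable measurableSet_uIoc
  · apply ContinuousOn.intervalIntegrable
    rw [uIcc_of_le zero_le_one]
    exact hslice x hx
  · exact (hslice'.mono hI).aestronglyMeasurable measurableSet_uIoc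
  · refine Eventually.of_forall (fun t ht y hy => hC (y, t) ⟨ball_subset_closedBall hy, hI ht⟩)
  · refine Eventually.of_forall (fun t ht y hy => hF y (hεU (ball_subset_closedBall hy)) t (hI ht))

/-- the argument of the logarithm in `rrF` -/
noncomputable def G (p : ℂ × ℂ) (t : ℝ) : ℂ :=
  2 * Complex.cos p.2 + 2 * Complex.cos (2 * π * p.1 * t)

noncomputable def G1 (p : ℂ × ℂ) (t : ℝ) : ℂ := -(2 * Complex.sin (2 * π * p.1 * t)) * (2 * π * t)

noncomputable def G2 (p : ℂ × ℂ) (_ : ℝ) : ℂ := -(2 * Complex.sin p.2)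

/-- derivative of `log G` -/
noncomputable def LL (p : ℂ × ℂ) (t : ℝ) : ℂ × ℂ →L[ℂ] ℂ :=
  (G p t)⁻¹ • (G1 p t • ContinuousLinearMap.fst ℂ ℂ ℂ + G2 p t • ContinuousLinearMap.snd ℂ ℂ ℂ)

theorem cont_G : Continuous (fun q : (ℂ × ℂ) × ℝ => G q.1 q.2) := by
  unfold G
  fun_prop

theorem G_deriv (p : ℂ × ℂ) (t : ℝ) : HasFDerivAt (fun p => G p t)
    (G1 p t • ContinuousLinearMap.fst ℂ ℂ ℂ + G2 p t • ContinuousLinearMap.snd ℂ ℂ ℂ) p := by
  have h1 : HasFDerivAt (fun p : ℂ × ℂ => Complex.cos p.2)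
      ((-Complex.sin p.2) • ContinuousLinearMap.snd ℂ ℂ ℂ) p :=
    (Complex.hasDerivAt_cos p.2).comp_hasFDerivAt p (hasFDerivAt_snd)
  have h2 : HasFDerivAt (fun p : ℂ × ℂ => 2 * π * p.1 * t)
      ((2 * π * t : ℂ) • ContinuousLinearMap.fst ℂ ℂ ℂ) p := by
    have := (hasFDerivAt_fst (𝕜 := ℂ) (E := ℂ) (F := ℂ) (p := p)).const_mul (2 * π * t : ℂ)
    refine this.congr_of_eventuallyEq (Eventually.of_forall fun q => ?_)
    simp only
    ring
  have h3 : HasFDerivAt (fun p : ℂ × ℂ => Complex.cos (2 * π * p.1 * t))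
      ((-Complex.sin (2 * π * p.1 * t)) • ((2 * π * t : ℂ) • ContinuousLinearMap.fst ℂ ℂ ℂ)) p :=
    (Complex.hasDerivAt_cos _).comp_hasFDerivAt p h2
  have h4 := (h1.const_mul 2).add (h3.const_mul 2)
  refine h4.congr_fderiv ?_
  ext
  · simp [G1, G2]
    ring
  · simp [G1, G2]

theorem cont_LL (U : Set (ℂ × ℂ)) (h : ∀ p ∈ U, ∀ t ∈ Icc (0 : ℝ) 1, G p t ∈ Complex.slitPlane) :
    ContinuousOn (fun q : (ℂ × ℂ) × ℝ => LL q.1 q.2) (U ×ˢ Icc 0 1) := by
  unfold LL
  apply ContinuousOn.fun_smul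
  · apply cont_G.continuousOn.inv₀
    rintro ⟨p, t⟩ ⟨hp, ht⟩
    exact Complex.slitPlane_ne_zero (h p hp t ht)
  · apply Continuous.continuousOn
    unfold G1 G2
    fun_prop

section
variable {U : Set (ℂ × ℂ)} (hU : IsOpen U)
  (h : ∀ p ∈ U, ∀ t ∈ Icc (0 : ℝ) 1, G p t ∈ Complex.slitPlane)
include hU h

theorem I_deriv (p : ℂ × ℂ) (hp : p ∈ U) :
    HasFDerivAt (fun p => ∫ t in (0 : ℝ)..1, Complex.log (G p t)) (∫ t in (0 : ℝ)..1, LL p t) p := by
  refine par U hU (fun p t => Complex.log (G p t)) LL ?_ ?_ (cont_LL U h) p hp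
  · intro q hq t ht
    exact (G_deriv q t).clog (h q hq t ht)
  · exact cont_G.continuousOn.clog (by rintro ⟨q, t⟩ ⟨hq, ht⟩; exact h q hq t ht)

theorem rr_deriv (p : ℂ × ℂ) (hp : p ∈ U) :
    HasFDerivAt (fun p : ℂ × ℂ => rrF p.1 p.2) (p.1 • (∫ t in (0 : ℝ)..1, LL p t) +
      (∫ t in (0 : ℝ)..1, Complex.log (G p t)) • ContinuousLinearMap.fst ℂ ℂ ℂ) p :=
  (hasFDerivAt_fst (𝕜 := ℂ) (E := ℂ) (F := ℂ) (p := p)).mul (I_deriv hU h p hp)

omit hU in
theorem contG1 (p : ℂ × ℂ) (hp : p ∈ U) : ContinuousOn (fun t : ℝ => (G p t)⁻¹ * G1 p t) (uIcc 0 1) := by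
  rw [uIcc_of_le zero_le_one]
  apply ContinuousOn.mul
  · apply ContinuousOn.inv₀
    · exact (cont_G.comp (f := fun t : ℝ => (p, t)) (by fun_prop)).continuousOn
    · intro t ht
      exact Complex.slitPlane_ne_zero (h p hp t ht)
  · unfold G1
    fun_prop

omit hU in
theorem contG2 (p : ℂ × ℂ) (hp : p ∈ U) : ContinuousOn (fun t : ℝ => (G p t)⁻¹ * G2 p t) (uIcc 0 1) := by
  rw [uIcc_of_le zero_le_one]
  apply ContinuousOn.mul
  · apply ContinuousOn.inv₀
    · exact (cont_G.comp (f := fun t : ℝ => (p, t)) (by fun_prop)).continuousOn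
    · intro t ht
      exact Complex.slitPlane_ne_zero (h p hp t ht)
  · unfold G2
    fun_prop

omit hU in
theorem contLG (p : ℂ × ℂ) (hp : p ∈ U) : ContinuousOn (fun t : ℝ => Complex.log (G p t))
    (uIcc 0 1) := by
  rw [uIcc_of_le zero_le_one]
  exact (cont_G.comp (f := fun t : ℝ => (p, t)) (by fun_prop)).continuousOn.clog (h p hp)

omit hU in
theorem LL_apply (p : ℂ × ℂ) (hp : p ∈ U) (v : ℂ × ℂ) : (∫ t in (0 : ℝ)..1, LL p t) v =
    ∫ t in (0 : ℝ)..1, LL p t v := by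
  apply ContinuousLinearMap.intervalIntegral_apply
  apply ContinuousOn.intervalIntegrable
  rw [uIcc_of_le zero_le_one]
  exact (cont_LL U h).comp (f := fun t : ℝ => (p, t)) (by fun_prop) (fun t ht => ⟨hp, ht⟩)

omit hU in
theorem id1 (p : ℂ × ℂ) (hp : p ∈ U) : (∫ t in (0 : ℝ)..1, Complex.log (G p t)) +
    p.1 * (∫ t in (0 : ℝ)..1, (G p t)⁻¹ * G1 p t) = Complex.log (G p 1) := by
  have hd : ∀ t ∈ uIcc (0 : ℝ) 1, HasDerivAt (fun t : ℝ => (t : ℂ) * Complex.log (G p t))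
      (Complex.log (G p t) + p.1 * ((G p t)⁻¹ * G1 p t)) t := by
    intro t ht
    rw [uIcc_of_le zero_le_one] at ht
    have hs := h p hp t ht
    have hne := Complex.slitPlane_ne_zero hs
    have h1 : HasDerivAt (fun t : ℝ => (t : ℂ)) 1 t := Complex.ofRealCLM.hasDerivAt
    have h2 : HasDerivAt (fun t : ℝ => 2 * π * p.1 * (t : ℂ)) (2 * π * p.1) t := by
      simpa using h1.const_mul (2 * π * p.1)
    have h3 : HasDerivAt (fun t : ℝ => G p t)
        (2 * (-Complex.sin (2 * π * p.1 * t) * (2 * π * p.1))) t := by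
      unfold G
      exact (((Complex.hasDerivAt_cos _).comp t h2).const_mul 2).const_add _
    have h4 := h1.mul (h3.clog_real hs)
    refine h4.congr_deriv ?_
    unfold G1
    field_simp
  have hint := intervalIntegral.integral_eq_sub_of_hasDerivAt hd (by
    apply IntervalIntegrable.add
    · exact (contLG h p hp).intervalIntegrable
    · exact ((contG1 h p hp).intervalIntegrable).const_mul _)
  rw [intervalIntegral.integral_add (contLG h p hp).intervalIntegrable
    (((contG1 h p hp).intervalIntegrable).const_mul _),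
    intervalIntegral.integral_const_mul] at hint
  rw [hint]
  simp

end

/-- `cos ((u t - ψ) / 2) / cos ((u t + ψ) / 2)` -/
noncomputable def QQ (p : ℂ × ℂ) (t : ℝ) : ℂ :=
  Complex.cos ((2 * π * p.1 * t - p.2) / 2) / Complex.cos ((2 * π * p.1 * t + p.2) / 2)

theorem id2 {U : Set (ℂ × ℂ)}
    (h : ∀ p ∈ U, ∀ t ∈ Icc (0 : ℝ) 1, G p t ∈ Complex.slitPlane)
    (hQ : ∀ p ∈ U, ∀ t ∈ Icc (0 : ℝ) 1, QQ p t ∈ Complex.slitPlane) (p : ℂ × ℂ) (hp : p ∈ U) :
    p.1 * (∫ t in (0 : ℝ)..1, (G p t)⁻¹ * G2 p t) = -(1 / (2 * π)) * Lg (2 * π * p.1) p.2 := by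
  have hpi : (π : ℂ) ≠ 0 := by exact_mod_cast Real.pi_ne_zero
  have hd : ∀ t ∈ uIcc (0 : ℝ) 1, HasDerivAt (fun t : ℝ => -(1 / (2 * π)) * Complex.log (QQ p t))
      (p.1 * ((G p t)⁻¹ * G2 p t)) t := by
    intro t ht
    rw [uIcc_of_le zero_le_one] at ht
    have hs := hQ p hp t ht
    have hne := Complex.slitPlane_ne_zero hs
    have hG := Complex.slitPlane_ne_zero (h p hp t ht)
    set a : ℂ := (2 * π * p.1 * t - p.2) / 2 with ha
    set b : ℂ := (2 * π * p.1 * t + p.2) / 2 with hb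
    have hA : Complex.cos a ≠ 0 := by
      intro h0
      apply hne
      unfold QQ
      rw [← ha, h0, zero_div]
    have hB : Complex.cos b ≠ 0 := by
      intro h0
      apply hne
      unfold QQ
      rw [← hb, h0, div_zero]
    have h1 : HasDerivAt (fun t : ℝ => (t : ℂ)) 1 t := Complex.ofRealCLM.hasDerivAt
    have h2 : HasDerivAt (fun t : ℝ => 2 * π * p.1 * (t : ℂ)) (2 * π * p.1) t := by
      simpa using h1.const_mul (2 * π * p.1)
    have h3 : HasDerivAt (fun t : ℝ => Complex.cos ((2 * π * p.1 * t - p.2) / 2))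
        (-Complex.sin a * (2 * π * p.1 / 2)) t :=
      (Complex.hasDerivAt_cos _).comp t ((h2.sub_const p.2).div_const 2)
    have h4 : HasDerivAt (fun t : ℝ => Complex.cos ((2 * π * p.1 * t + p.2) / 2))
        (-Complex.sin b * (2 * π * p.1 / 2)) t :=
      (Complex.hasDerivAt_cos _).comp t ((h2.add_const p.2).div_const 2)
    have h5 : HasDerivAt (fun t : ℝ => QQ p t) ((-Complex.sin a * (2 * π * p.1 / 2) * Complex.cos b -
        Complex.cos a * (-Complex.sin b * (2 * π * p.1 / 2))) / Complex.cos b ^ 2) t :=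
      h3.div h4 hB
    have h6 := (h5.clog_real hs).const_mul (-(1 / (2 * π)) : ℂ)
    refine h6.congr_deriv ?_
    have e1 : G p t = 4 * (Complex.cos a * Complex.cos b) := by
      have e2 : Complex.cos (a + b) = Complex.cos (2 * π * p.1 * t) := by
        congr 1; rw [ha, hb]; ring
      have e3 : Complex.cos (b - a) = Complex.cos p.2 := by
        congr 1; rw [ha, hb]; ring
      unfold G
      rw [← e2, ← e3, Complex.cos_add, Complex.cos_sub]
      ring
    have e4 : Complex.sin p.2 = Complex.sin b * Complex.cos a - Complex.cos b * Complex.sin a := by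
      rw [← Complex.sin_sub]
      congr 1; rw [ha, hb]; ring
    have e5 : QQ p t = Complex.cos a / Complex.cos b := rfl
    unfold G2
    rw [e1, e4, e5]
    field_simp
    ring
  have hint := intervalIntegral.integral_eq_sub_of_hasDerivAt hd
    (((contG2 h p hp).intervalIntegrable).const_mul _)
  rw [intervalIntegral.integral_const_mul] at hint
  rw [hint]
  have e1 : QQ p 0 = 1 := by
    have := Complex.slitPlane_ne_zero (hQ p hp 0 (by simp))
    unfold QQ at this ⊢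
    have e : (2 * π * p.1 * ((0 : ℝ) : ℂ) - p.2) / 2 = -((2 * π * p.1 * ((0 : ℝ) : ℂ) + p.2) / 2) := by
      push_cast; ring
    rw [e, Complex.cos_neg] at this ⊢
    exact div_self (fun h0 => this (by rw [h0, div_zero]))
  rw [e1, Complex.log_one]
  unfold Lg QQ
  push_cast
  simp

end Pool.Agent.W398.HT
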