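import Pool.Agent.W398.HT.RRD

/-!
# Volume conjecture for highly twisted two-bridge links: derivatives of the limit functions
-/

set_option autoImplicit false

namespace Pool.Agent.W398.HT

open Filter Topology Metric MeasureTheory Set
open scoped Real
open Pool.Agent.W711.HT

/-- `sin z / z` -/
noncomputable def sc : ℂ → ℂ := dslope Complex.sin 0

theorem sc_diff : Differentiable ℂ sc := by
  rw [← differentiableOn_univ]
  exact (Complex.differentiableOn_dslope univ_mem).2 Complex.differentiable_sin.differentiableOn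

theorem sin_eq (z : ℂ) : Complex.sin z = z * sc z := by
  have := sub_smul_dslope Complex.sin 0 z
  unfold sc
  simpa using this.symm

theorem sc_zero : sc 0 = 1 := by
  unfold sc
  rw [dslope_same, Complex.deriv_sin, Complex.cos_zero]

theorem sc_cont_deriv : Continuous (deriv sc) :=
  (sc_diff.contDiff (n := 1)).continuous_deriv le_rfl

/-- `2 sin (π δ t) / t` -/
noncomputable def kk (δ : ℂ) (t : ℝ) : ℂ := 2 * π * δ * sc (π * δ * t)

noncomputable def kd (δ : ℂ) (t : ℝ) : ℂ :=
  2 * π * sc (π * δ * t) + 2 * π * δ * (deriv sc (π * δ * t) * (π * t))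

noncomputable def kt (δ : ℂ) (t : ℝ) : ℂ := 2 * π * δ * (deriv sc (π * δ * t) * (π * δ))

theorem cont_kk : Continuous (fun q : ℂ × ℝ => kk q.1 q.2) := by
  unfold kk
  have := sc_diff.continuous
  fun_prop

theorem cont_kd : Continuous (fun q : ℂ × ℝ => kd q.1 q.2) := by
  unfold kd
  have := sc_diff.continuous
  have := sc_cont_deriv
  fun_prop

theorem cont_kt : Continuous (fun q : ℂ × ℝ => kt q.1 q.2) := by
  unfold kt
  have := sc_cont_deriv
  fun_prop

theorem sin_kk (δ : ℂ) (t : ℝ) : 2 * Complex.sin (π * δ * t) = (t : ℂ) * kk δ t := by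
  rw [sin_eq, kk]
  ring

theorem kk_deriv (δ : ℂ) (t : ℝ) : HasDerivAt (fun δ => kk δ t) (kd δ t) δ := by
  have h1 : HasDerivAt (fun δ : ℂ => π * δ * t) (π * t : ℂ) δ := by
    simpa using ((hasDerivAt_id δ).const_mul (π : ℂ)).mul_const (t : ℂ)
  have h2 : HasDerivAt (fun δ : ℂ => sc (π * δ * t)) (deriv sc (π * δ * t) * (π * t)) δ :=
    (sc_diff _).hasDerivAt.comp δ h1
  have h3 : HasDerivAt (fun δ : ℂ => 2 * π * δ) (2 * π : ℂ) δ := by
    simpa using (hasDerivAt_id δ).const_mul (2 * π : ℂ)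
  exact h3.mul h2

theorem kk_deriv_t (δ : ℂ) (t : ℝ) : HasDerivAt (fun t : ℝ => kk δ t) (kt δ t) t := by
  have h0 : HasDerivAt (fun t : ℝ => (t : ℂ)) 1 t := Complex.ofRealCLM.hasDerivAt
  have h1 : HasDerivAt (fun t : ℝ => π * δ * (t : ℂ)) (π * δ : ℂ) t := by
    simpa using h0.const_mul (π * δ : ℂ)
  have h2 : HasDerivAt (fun t : ℝ => sc (π * δ * t)) (deriv sc (π * δ * t) * (π * δ)) t :=
    (sc_diff _).hasDerivAt.comp t h1
  exact h2.const_mul _

section
variable {V : Set ℂ} (hV : IsOpen V)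
  (h : ∀ δ ∈ V, ∀ t ∈ Icc (0 : ℝ) 1, kk δ t ∈ Complex.slitPlane)
include h

theorem contLk (δ : ℂ) (hδ : δ ∈ V) : ContinuousOn (fun t : ℝ => Complex.log (kk δ t))
    (uIcc 0 1) := by
  rw [uIcc_of_le zero_le_one]
  exact (cont_kk.comp (f := fun t : ℝ => (δ, t)) (by fun_prop)).continuousOn.clog (h δ hδ)

theorem contkd (δ : ℂ) (hδ : δ ∈ V) : ContinuousOn (fun t : ℝ => kd δ t / kk δ t) (uIcc 0 1) := by
  rw [uIcc_of_le zero_le_one]
  apply ContinuousOn.div
  · exact (cont_kd.comp (f := fun t : ℝ => (δ, t)) (by fun_prop)).continuousOn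
  · exact (cont_kk.comp (f := fun t : ℝ => (δ, t)) (by fun_prop)).continuousOn
  · intro t ht
    exact Complex.slitPlane_ne_zero (h δ hδ t ht)

theorem ss_eq (δ : ℂ) (hδ : δ ∈ V) :
    ssF δ = δ * (-1 + ∫ t in (0 : ℝ)..1, Complex.log (kk δ t)) := by
  unfold ssF
  congr 1
  have e : ∫ t in (0 : ℝ)..1, Complex.log (2 * Complex.sin (π * δ * t)) =
      ∫ t in (0 : ℝ)..1, (((Real.log t : ℝ) : ℂ) + Complex.log (kk δ t)) := by
    apply intervalIntegral.integral_congr_ae
    refine Eventually.of_forall (fun t ht => ?_)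
    rw [uIoc_of_le zero_le_one] at ht
    rw [sin_kk, Complex.log_ofReal_mul ht.1
      (Complex.slitPlane_ne_zero (h δ hδ t (Ioc_subset_Icc_self ht)))]
  rw [e, intervalIntegral.integral_add]
  · congr 1
    rw [intervalIntegral.integral_ofReal, integral_log]
    simp
  · have hl := intervalIntegral.intervalIntegrable_log' (a := 0) (b := 1)
    exact ⟨hl.1.ofReal, hl.2.ofReal⟩
  · exact (contLk h δ hδ).intervalIntegrable

theorem id3 (δ : ℂ) (hδ : δ ∈ V) : (-1 + ∫ t in (0 : ℝ)..1, Complex.log (kk δ t)) +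
    δ * (∫ t in (0 : ℝ)..1, kd δ t / kk δ t) = Complex.log (kk δ 1) := by
  have hd : ∀ t ∈ uIcc (0 : ℝ) 1, HasDerivAt (fun t : ℝ => (t : ℂ) * Complex.log (kk δ t))
      (Complex.log (kk δ t) + (δ * (kd δ t / kk δ t) - 1)) t := by
    intro t ht
    rw [uIcc_of_le zero_le_one] at ht
    have hs := h δ hδ t ht
    have hne := Complex.slitPlane_ne_zero hs
    have h1 : HasDerivAt (fun t : ℝ => (t : ℂ)) 1 t := Complex.ofRealCLM.hasDerivAt
    have h4 := h1.mul ((kk_deriv_t δ t).clog_real hs)
    refine h4.congr_deriv ?_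
    have e : δ * kd δ t = kk δ t + t * kt δ t := by
      unfold kd kk kt
      ring
    have e2 : δ * (kd δ t / kk δ t) = 1 + t * (kt δ t / kk δ t) := by
      rw [← mul_div_assoc, e, add_div, div_self hne, mul_div_assoc]
    rw [e2]
    ring
  have i1 := (contLk h δ hδ).intervalIntegrable (μ := volume)
  have i2 := ((contkd h δ hδ).intervalIntegrable (μ := volume)).const_mul δ
  have i3 : IntervalIntegrable (fun _ : ℝ => (1 : ℂ)) volume 0 1 := intervalIntegrable_const
  have hint := intervalIntegral.integral_eq_sub_of_hasDerivAt hd (i1.add (i2.sub i3))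
  rw [intervalIntegral.integral_add i1 (i2.sub i3), intervalIntegral.integral_sub i2 i3,
    intervalIntegral.integral_const_mul] at hint
  simp only [intervalIntegral.integral_const, Complex.ofReal_one, Complex.ofReal_zero,
    one_mul, zero_mul, sub_zero, one_smul] at hint
  rw [← hint]
  ring

include hV in
theorem J_deriv (δ : ℂ) (hδ : δ ∈ V) :
    HasDerivAt (fun δ => ∫ t in (0 : ℝ)..1, Complex.log (kk δ t))
      (∫ t in (0 : ℝ)..1, kd δ t / kk δ t) δ := by
  have h1 := par V hV (fun δ t => Complex.log (kk δ t))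
    (fun δ t => (kd δ t / kk δ t) • (1 : ℂ →L[ℂ] ℂ)) (by
      intro x hx t ht
      have := ((kk_deriv x t).clog (h x hx t ht)).hasFDerivAt
      refine this.congr_fderiv ?_
      ext
      simp) (by
      exact cont_kk.continuousOn.clog (by rintro ⟨q, t⟩ ⟨hq, ht⟩; exact h q hq t ht)) (by
      apply ContinuousOn.fun_smul
      · apply ContinuousOn.div cont_kd.continuousOn cont_kk.continuousOn
        rintro ⟨q, t⟩ ⟨hq, ht⟩
        exact Complex.slitPlane_ne_zero (h q hq t ht)
      · exact continuousOn_const) δ hδ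
  refine h1.hasDerivAt.congr_deriv ?_
  rw [ContinuousLinearMap.intervalIntegral_apply]
  · simp
  · apply ContinuousOn.intervalIntegrable
    exact (contkd h δ hδ).smul continuousOn_const

include hV in
theorem ss_deriv (δ : ℂ) (hδ : δ ∈ V) :
    HasDerivAt ssF (Complex.log (2 * Complex.sin (π * δ))) δ := by
  have h1 : HasDerivAt (fun z => z * (-1 + ∫ t in (0 : ℝ)..1, Complex.log (kk z t)))
      (1 * (-1 + ∫ t in (0 : ℝ)..1, Complex.log (kk δ t)) +
        δ * (∫ t in (0 : ℝ)..1, kd δ t / kk δ t)) δ :=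
    (hasDerivAt_id δ).mul ((J_deriv hV h δ hδ).const_add (-1))
  rw [one_mul, id3 h δ hδ] at h1
  have e : kk δ 1 = 2 * Complex.sin (π * δ) := by
    have := sin_kk δ 1
    simpa using this.symm
  rw [e] at h1
  refine h1.congr_of_eventuallyEq ?_
  filter_upwards [hV.mem_nhds hδ] with z hz
  exact ss_eq h z hz

end

/-- choice of the radius -/
theorem exists_rho : ∃ ρ > 0, ∀ δ ∈ ball (1 / 4 : ℂ) ρ, ∀ ψ ∈ ball (0 : ℂ) ρ,
    ∀ t ∈ Icc (0 : ℝ) 1, G (δ, ψ) t ∈ Complex.slitPlane ∧ QQ (δ, ψ) t ∈ Complex.slitPlane ∧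
      kk δ t ∈ Complex.slitPlane := by
  have key : ∀ᶠ p : ℂ × ℂ in 𝓝 ((1 / 4 : ℂ), (0 : ℂ)), ∀ t ∈ Icc (0 : ℝ) 1,
      G p t ∈ Complex.slitPlane ∧ QQ p t ∈ Complex.slitPlane ∧ kk p.1 t ∈ Complex.slitPlane := by
    apply isCompact_Icc.eventually_forall_of_forall_eventually
    intro t ht
    have hpi := Real.pi_pos
    have ht0 := ht.1
    have ht1 := ht.2
    have hc4 : 0 < Real.cos (π * t / 4) := by
      apply Real.cos_pos_of_mem_Ioo
      constructor <;> nlinarith
    have hc2 : 0 ≤ Real.cos (π * t / 2) := by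
      apply Real.cos_nonneg_of_mem_Icc
      constructor <;> nlinarith
    have g1 : G ((1 / 4 : ℂ), (0 : ℂ)) t = ((2 + 2 * Real.cos (π * t / 2) : ℝ) : ℂ) := by
      unfold G
      push_cast
      rw [Complex.cos_zero]
      have : 2 * (π : ℂ) * (1 / 4) * t = π * t / 2 := by ring
      rw [this]
      ring
    have c1 : Complex.cos ((2 * π * (1 / 4 : ℂ) * t + 0) / 2) = ((Real.cos (π * t / 4) : ℝ) : ℂ) := by
      push_cast
      congr 1
      ring
    have c2 : Complex.cos ((2 * π * (1 / 4 : ℂ) * t - 0) / 2) = ((Real.cos (π * t / 4) : ℝ) : ℂ) := by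
      push_cast
      congr 1
      ring
    have hne : ((Real.cos (π * t / 4) : ℝ) : ℂ) ≠ 0 := by exact_mod_cast hc4.ne'
    refine Filter.Eventually.and ?_ (Filter.Eventually.and ?_ ?_)
    · have hc : ContinuousAt (fun q : (ℂ × ℂ) × ℝ => G q.1 q.2) (((1 / 4 : ℂ), (0 : ℂ)), t) :=
        cont_G.continuousAt
      apply hc.eventually_mem
      apply Complex.isOpen_slitPlane.mem_nhds
      simp only
      rw [g1, Complex.ofReal_mem_slitPlane]
      linarith
    · have hc : ContinuousAt (fun q : (ℂ × ℂ) × ℝ => QQ q.1 q.2) (((1 / 4 : ℂ), (0 : ℂ)), t) := by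
        unfold QQ
        apply ContinuousAt.div
        · fun_prop
        · fun_prop
        · simp only
          rw [c1]
          exact hne
      apply hc.eventually_mem
      apply Complex.isOpen_slitPlane.mem_nhds
      simp only [QQ]
      rw [c1, c2, div_self hne]
      exact Complex.one_mem_slitPlane
    · have hc : ContinuousAt (fun q : (ℂ × ℂ) × ℝ => kk q.1.1 q.2) (((1 / 4 : ℂ), (0 : ℂ)), t) :=
        (cont_kk.comp (f := fun q : (ℂ × ℂ) × ℝ => (q.1.1, q.2)) (by fun_prop)).continuousAt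
      apply hc.eventually_mem
      apply Complex.isOpen_slitPlane.mem_nhds
      simp only
      rcases ht0.eq_or_lt with h0 | h0
      · have : kk (1 / 4) t = ((π / 2 : ℝ) : ℂ) := by
          rw [← h0]
          unfold kk
          push_cast
          rw [mul_zero, sc_zero]
          ring
        rw [this, Complex.ofReal_mem_slitPlane]
        linarith
      · have hs : 0 < Real.sin (π * t / 4) := by
          apply Real.sin_pos_of_pos_of_lt_pi
          · positivity
          · nlinarith
        have : kk (1 / 4) t = ((2 * Real.sin (π * t / 4) / t : ℝ) : ℂ) := by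
          have h1 := sin_kk (1 / 4) t
          have h2 : (t : ℂ) ≠ 0 := by exact_mod_cast h0.ne'
          push_cast
          rw [eq_div_iff h2, mul_comm, ← h1]
          congr 2
          ring
        rw [this, Complex.ofReal_mem_slitPlane]
        positivity
  obtain ⟨ρ, hρ, hsub⟩ := Metric.mem_nhds_iff.1 key
  refine ⟨ρ, hρ, fun δ hδ ψ hψ t ht => ?_⟩
  have hmem : ((δ, ψ) : ℂ × ℂ) ∈ ball ((1 / 4 : ℂ), (0 : ℂ)) ρ := by
    rw [← ball_prod_same]
    exact ⟨hδ, hψ⟩
  exact hsub hmem t ht

/-- the value at the centre -/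
theorem val : 2 * rrF (1 / 4) 0 - 4 * ssF (1 / 4) = ((2 * bet : ℝ) : ℂ) := by
  have hpi := Real.pi_pos
  set A : ℝ := ∫ s in (0 : ℝ)..(π / 4), Real.log (2 * Real.cos s) with hA
  set B : ℝ := ∫ s in (0 : ℝ)..(π / 4), Real.log (2 * Real.sin s) with hB
  have e1 : rrF (1 / 4) 0 = ((2 / π * A : ℝ) : ℂ) := by
    unfold rrF
    have e : ∫ t in (0 : ℝ)..1, Complex.log (2 * Complex.cos 0 + 2 * Complex.cos (2 * π * (1 / 4) * t)) =
        ∫ t in (0 : ℝ)..1, ((2 * Real.log (2 * Real.cos (t * (π / 4))) : ℝ) : ℂ) := by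
      apply intervalIntegral.integral_congr
      intro t ht
      rw [uIcc_of_le zero_le_one] at ht
      have ht0 := ht.1
      have ht1 := ht.2
      have hc4 : 0 < Real.cos (t * (π / 4)) := by
        apply Real.cos_pos_of_mem_Ioo
        constructor <;> nlinarith
      have : 2 * Complex.cos 0 + 2 * Complex.cos (2 * π * (1 / 4) * t) =
          (((2 * Real.cos (t * (π / 4))) ^ 2 : ℝ) : ℂ) := by
        push_cast
        have h2 : 2 * (π : ℂ) * (1 / 4) * t = 2 * (t * (π / 4)) := by ring
        rw [h2, Complex.cos_two_mul, Complex.cos_zero]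
        ring
      simp only
      rw [this, ← Complex.ofReal_log (by positivity), Real.log_pow]
      push_cast
      ring
    rw [e, intervalIntegral.integral_ofReal, intervalIntegral.integral_const_mul,
      intervalIntegral.integral_comp_mul_right (fun s => Real.log (2 * Real.cos s))
        (by positivity : (π / 4) ≠ 0)]
    rw [zero_mul, one_mul, ← hA]
    push_cast
    rw [smul_eq_mul]
    push_cast
    field_simp
  have e2 : ssF (1 / 4) = ((1 / π * B : ℝ) : ℂ) := by
    unfold ssF
    have e : ∫ t in (0 : ℝ)..1, Complex.log (2 * Complex.sin (π * (1 / 4) * t)) =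
        ∫ t in (0 : ℝ)..1, ((Real.log (2 * Real.sin (t * (π / 4))) : ℝ) : ℂ) := by
      apply intervalIntegral.integral_congr
      intro t ht
      rw [uIcc_of_le zero_le_one] at ht
      have ht0 := ht.1
      have ht1 := ht.2
      have hc4 : 0 ≤ Real.sin (t * (π / 4)) := by
        apply Real.sin_nonneg_of_nonneg_of_le_pi
        · positivity
        · nlinarith
      have : 2 * Complex.sin (π * (1 / 4) * t) = ((2 * Real.sin (t * (π / 4)) : ℝ) : ℂ) := by
        push_cast
        have h2 : (π : ℂ) * (1 / 4) * t = t * (π / 4) := by ring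
        rw [h2]
      simp only
      rw [this, ← Complex.ofReal_log (by positivity)]
    rw [e, intervalIntegral.integral_ofReal,
      intervalIntegral.integral_comp_mul_right (fun s => Real.log (2 * Real.sin s))
        (by positivity : (π / 4) ≠ 0)]
    rw [zero_mul, one_mul, ← hB]
    rw [smul_eq_mul]
    push_cast
    field_simp
  have hi1 : IntervalIntegrable (fun s => Real.log (2 * Real.cos s)) volume 0 (π / 4) := by
    apply ContinuousOn.intervalIntegrable
    rw [uIcc_of_le (by positivity)]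
    apply ContinuousOn.log (by fun_prop)
    intro s hs
    have : 0 < Real.cos s := by
      apply Real.cos_pos_of_mem_Ioo
      constructor
      · linarith [hs.1]
      · linarith [hs.2]
    positivity
  have hi2 : IntervalIntegrable (fun s => Real.log (2 * Real.sin s)) volume 0 (π / 4) := by
    have := (analyticOnNhd_const.mul Real.analyticOnNhd_sin : AnalyticOnNhd ℝ
      (fun s => (2 : ℝ) * Real.sin s) univ).meromorphicOn
    exact MeromorphicOn.intervalIntegrable_log (fun x _ => this x (mem_univ x))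
  have hAB : A + B = 0 := by
    rw [hA, hB, ← intervalIntegral.integral_add hi1 hi2]
    have e : ∫ s in (0 : ℝ)..(π / 4), (Real.log (2 * Real.cos s) + Real.log (2 * Real.sin s)) =
        ∫ s in (0 : ℝ)..(π / 4), (fun u => Real.log 2 + Real.log (Real.sin u)) (s * 2) := by
      apply intervalIntegral.integral_congr_ae
      refine Eventually.of_forall (fun s hs => ?_)
      rw [uIoc_of_le (by positivity)] at hs
      have h1 : 0 < Real.cos s := by
        apply Real.cos_pos_of_mem_Ioo
        constructor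
        · linarith [hs.1]
        · linarith [hs.2]
      have h2 : 0 < Real.sin s := by
        apply Real.sin_pos_of_pos_of_lt_pi hs.1
        linarith [hs.2]
      simp only
      rw [← Real.log_mul (by positivity) (by positivity), mul_comm s 2, Real.sin_two_mul,
        ← Real.log_mul (by norm_num) (by positivity)]
      congr 1
      ring
    rw [e, intervalIntegral.integral_comp_mul_right (fun u => Real.log 2 + Real.log (Real.sin u))
      (by norm_num : (2 : ℝ) ≠ 0), zero_mul]
    have e3 : π / 4 * 2 = π / 2 := by ring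
    have hls : IntervalIntegrable (fun x => Real.log (Real.sin x)) volume 0 (π / 2) :=
      intervalIntegrable_log_sin
    rw [e3, intervalIntegral.integral_add intervalIntegrable_const hls]
    have := integral_log_sin_zero_pi_div_two
    rw [this]
    simp
    ring
  rw [e1, e2, bet, ← hB, ← Complex.ofReal_ofNat 2, ← Complex.ofReal_ofNat 4, ← Complex.ofReal_mul,
    ← Complex.ofReal_mul, ← Complex.ofReal_sub]
  congr 1
  have : A = -B := by linarith
  rw [this]
  field_simp
  ring

theorem main : S_RRD := by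
  obtain ⟨ρ, hρ, hall⟩ := exists_rho
  have hU : IsOpen (ball (1 / 4 : ℂ) ρ ×ˢ ball (0 : ℂ) ρ) := isOpen_ball.prod isOpen_ball
  have hG : ∀ p ∈ ball (1 / 4 : ℂ) ρ ×ˢ ball (0 : ℂ) ρ, ∀ t ∈ Icc (0 : ℝ) 1,
      G p t ∈ Complex.slitPlane := fun p hp t ht => (hall p.1 hp.1 p.2 hp.2 t ht).1
  have hQ : ∀ p ∈ ball (1 / 4 : ℂ) ρ ×ˢ ball (0 : ℂ) ρ, ∀ t ∈ Icc (0 : ℝ) 1,
      QQ p t ∈ Complex.slitPlane := fun p hp t ht => (hall p.1 hp.1 p.2 hp.2 t ht).2.1
  have hk : ∀ δ ∈ ball (1 / 4 : ℂ) ρ, ∀ t ∈ Icc (0 : ℝ) 1, kk δ t ∈ Complex.slitPlane :=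
    fun δ hδ t ht => (hall δ hδ 0 (mem_ball_self hρ) t ht).2.2
  refine ⟨ρ, hρ, ?_, ?_, ?_, val⟩
  · intro p hp
    exact (rr_deriv hU hG p hp).differentiableAt.differentiableWithinAt
  · intro δ hδ
    exact (ss_deriv isOpen_ball hk δ hδ).differentiableAt.differentiableWithinAt
  · intro δ hδ ψ hψ
    have hp : ((δ, ψ) : ℂ × ℂ) ∈ ball (1 / 4 : ℂ) ρ ×ˢ ball (0 : ℂ) ρ := ⟨hδ, hψ⟩
    have hd := rr_deriv hU hG (δ, ψ) hp
    refine ⟨?_, ?_, ss_deriv isOpen_ball hk δ hδ⟩
    · have h1 : HasDerivAt (fun z : ℂ => (z, ψ)) ((1 : ℂ), (0 : ℂ)) δ :=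
        (hasDerivAt_id δ).prodMk (hasDerivAt_const δ ψ)
      have h2 := hd.comp_hasDerivAt δ h1
      refine h2.congr_deriv ?_
      have h3 := id1 hG (δ, ψ) hp
      have e : Complex.log (G (δ, ψ) 1) = Complex.log (2 * Complex.cos ψ + 2 * Complex.cos (2 * π * δ)) := by
        unfold G
        push_cast
        rw [mul_one]
      rw [← e, ← h3]
      simp only [add_apply, smul_apply, smul_eq_mul]
      rw [LL_apply hG (δ, ψ) hp]
      simp [LL]
      ring
    · have h1 : HasDerivAt (fun z : ℂ => (δ, z)) ((0 : ℂ), (1 : ℂ)) ψ :=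
        (hasDerivAt_const ψ δ).prodMk (hasDerivAt_id ψ)
      have h2 := hd.comp_hasDerivAt ψ h1
      refine h2.congr_deriv ?_
      have h3 := id2 hG hQ (δ, ψ) hp
      simp only at h3
      rw [← h3]
      simp only [add_apply, smul_apply, smul_eq_mul]
      rw [LL_apply hG (δ, ψ) hp]
      simp [LL]

end Pool.Agent.W398.HT
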